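import Mathlib

/-!
# Graph families whose pairwise intersections have at most two components

The conjectured bound `|F| ≤ (n + 1) / 2 ^ n * 2 ^ (n choose 2)` fails for `n = 4` (the family of
all graphs with at least four edges has `22 > 20` members) and for `n = 5` (an explicit family with
`196 > 192` members).
-/

set_option autoImplicit false

namespace Pool.Agent.Results.MP_5e9fbd_co.SmallCounterexamples

/-- The intersection of any two distinct members of `F` has at most two connected components. -/
def AtMostTwo {n : ℕ} (F : Finset (SimpleGraph (Fin n))) : Prop :=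
  ∀ G ∈ F, ∀ H ∈ F, G ≠ H → Nat.card (G ⊓ H).ConnectedComponent ≤ 2

/-- The conjectured bound for families of graphs on `n` vertices. -/
def Bound (n : ℕ) : Prop :=
  ∀ F : Finset (SimpleGraph (Fin n)), AtMostTwo F →
    (F.card : ℝ) ≤ ((n : ℝ) + 1) / 2 ^ n * 2 ^ (n.choose 2)

/-- The graph on `Fin n` whose edges are coded by the bits `n * i + j`, `i < j`, of `b`. -/
def ofMask (n b : ℕ) : SimpleGraph (Fin n) where
  Adj i j := i ≠ j ∧ b.testBit (n * (min i j : Fin n) + (max i j : Fin n)) = true
  symm := ⟨fun i j h => ⟨h.1.symm, by rw [min_comm j i, max_comm j i]; exact h.2⟩⟩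
  loopless := ⟨fun i h => h.1 rfl⟩

lemma inf_adj {n a b : ℕ} {i j : Fin n} (h : i ≠ j)
    (hb : (a &&& b).testBit (n * (min i j : Fin n) + (max i j : Fin n)) = true) :
    (ofMask n a ⊓ ofMask n b).Adj i j := by
  rw [Nat.testBit_land, Bool.and_eq_true] at hb
  exact ⟨⟨h, hb.1⟩, ⟨h, hb.2⟩⟩

/-- If every surjective 3-labelling of the vertices is broken by an edge then there are at most
two components. -/
lemma card_le_two {n : ℕ} (G : SimpleGraph (Fin n))
    (h : ∀ c : Fin n → Fin 3, Function.Surjective c → ∃ i j, G.Adj i j ∧ c i ≠ c j) :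
    Nat.card G.ConnectedComponent ≤ 2 := by
  classical
  by_contra hcon
  have h3 : 3 ≤ Nat.card G.ConnectedComponent := by omega
  have : Fintype G.ConnectedComponent := Fintype.ofFinite _
  rw [Nat.card_eq_fintype_card] at h3
  have h2 : 2 < (Finset.univ : Finset G.ConnectedComponent).card := by
    rw [Finset.card_univ]; omega
  obtain ⟨A, B, C, -, -, -, hAB, hAC, hBC⟩ := Finset.two_lt_card_iff.1 h2
  let c : Fin n → Fin 3 := fun v =>
    if G.connectedComponentMk v = A then 0 else if G.connectedComponentMk v = B then 1 else 2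
  have hc : Function.Surjective c := by
    intro x
    fin_cases x
    · obtain ⟨v, hv⟩ := A.exists_rep
      refine ⟨v, ?_⟩
      have hv' : G.connectedComponentMk v = A := hv
      simp [c, hv']
    · obtain ⟨v, hv⟩ := B.exists_rep
      refine ⟨v, ?_⟩
      have hv' : G.connectedComponentMk v = B := hv
      simp [c, hv', hAB.symm]
    · obtain ⟨v, hv⟩ := C.exists_rep
      refine ⟨v, ?_⟩
      have hv' : G.connectedComponentMk v = C := hv
      simp [c, hv', hAC.symm, hBC.symm]
  obtain ⟨i, j, hij, hne⟩ := h c hc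
  apply hne
  have : G.connectedComponentMk i = G.connectedComponentMk j :=
    SimpleGraph.ConnectedComponent.sound hij.reachable
  simp only [c, this]

/-- A family given by lists of codes. -/
structure Code (n : ℕ) (L M P : List ℕ) : Prop where
  /-- the codes in `M` meet in every cross mask -/
  meet : ∀ a ∈ M, ∀ b ∈ M, ∀ p ∈ P, a &&& b &&& p ≠ 0
  /-- each member of `L` contains a member of `M` -/
  up : ∀ b ∈ L, ∃ m ∈ M, m &&& b = m
  /-- the cross masks of surjective labellings are listed in `P` -/
  cross : ∀ c : Fin n → Fin 3, Function.Surjective c → ∃ p ∈ P, ∀ k, p.testBit k = true →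
    ∃ i j : Fin n, i < j ∧ c i ≠ c j ∧ k = n * (i : ℕ) + (j : ℕ)

lemma Code.le_two {n : ℕ} {L M P : List ℕ} (h : Code n L M P) {a b : ℕ} (ha : a ∈ L)
    (hb : b ∈ L) : Nat.card (ofMask n a ⊓ ofMask n b).ConnectedComponent ≤ 2 := by
  apply card_le_two
  intro c hc
  obtain ⟨p, hp, hcr⟩ := h.cross c hc
  obtain ⟨m, hm, hma⟩ := h.up a ha
  obtain ⟨m', hm', hmb⟩ := h.up b hb
  have hne := h.meet m hm m' hm' p hp
  obtain ⟨k, hk⟩ : ∃ k, (m &&& m' &&& p).testBit k = true := by
    by_contra hcon
    push Not at hcon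
    apply hne
    apply Nat.eq_of_testBit_eq
    intro k
    simpa using hcon k
  rw [Nat.testBit_land, Nat.testBit_land, Bool.and_eq_true, Bool.and_eq_true] at hk
  obtain ⟨⟨hkm, hkm'⟩, hkp⟩ := hk
  obtain ⟨i, j, hij, hcij, rfl⟩ := hcr k hkp
  refine ⟨i, j, inf_adj hij.ne ?_, hcij⟩
  rw [min_eq_left hij.le, max_eq_right hij.le, Nat.testBit_land, Bool.and_eq_true]
  constructor
  · rw [← hma, Nat.testBit_land, Bool.and_eq_true] at hkm
    exact hkm.2
  · rw [← hmb, Nat.testBit_land, Bool.and_eq_true] at hkm'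
    exact hkm'.2

/-- Codes that only use bits of pairs `i < j`. -/
lemma ofMask_injOn {n : ℕ} {L : List ℕ} (hL : ∀ b ∈ L, ∀ k, b.testBit k = true →
    ∃ i j : Fin n, i < j ∧ k = n * (i : ℕ) + (j : ℕ)) :
    Set.InjOn (ofMask n) {b | b ∈ L} := by
  intro a ha b hb hab
  apply Nat.eq_of_testBit_eq
  intro k
  have key : ∀ x ∈ L, ∀ y ∈ L, ofMask n x = ofMask n y → x.testBit k = true →
      y.testBit k = true := by
    intro x hx y _ hxy hk
    obtain ⟨i, j, hij, rfl⟩ := hL x hx k hk
    have h1 : (ofMask n x).Adj i j := by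
      refine ⟨hij.ne, ?_⟩
      rw [min_eq_left hij.le, max_eq_right hij.le]
      exact hk
    rw [hxy] at h1
    have h2 := h1.2
    rw [min_eq_left hij.le, max_eq_right hij.le] at h2
    exact h2
  rcases h1 : a.testBit k with _ | _ <;> rcases h2 : b.testBit k with _ | _
  · rfl
  · rw [key b hb a ha hab.symm h2] at h1
    exact absurd h1 (by simp)
  · rw [key a ha b hb hab h1] at h2
    exact absurd h2 (by simp)
  · rfl

lemma not_bound {n : ℕ} {L M P : List ℕ} (h : Code n L M P) (hn : L.Nodup)
    (hL : ∀ b ∈ L, ∀ k, b.testBit k = true → ∃ i j : Fin n, i < j ∧ k = n * (i : ℕ) + (j : ℕ))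
    (hc : ((n : ℝ) + 1) / 2 ^ n * 2 ^ (n.choose 2) < L.length) : ¬ Bound n := by
  classical
  intro hB
  have hcard : (L.toFinset.image (ofMask n)).card = L.length := by
    rw [Finset.card_image_of_injOn, List.toFinset_card_of_nodup hn]
    intro a ha b hb
    exact ofMask_injOn hL (by simpa using ha) (by simpa using hb)
  have := hB (L.toFinset.image (ofMask n)) (by
    intro G hG H hH _
    obtain ⟨a, ha, rfl⟩ := Finset.mem_image.1 hG
    obtain ⟨b, hb, rfl⟩ := Finset.mem_image.1 hH
    exact h.le_two (by simpa using ha) (by simpa using hb))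
  rw [hcard] at this
  linarith

/-- codes -/
def F4 : List ℕ :=
  [78, 142, 198, 202, 204, 206, 2062, 2118, 2122, 2124, 2126, 2182, 2186, 2188, 2190, 2242, 2244,
   2246, 2248, 2250, 2252, 2254]

/-- codes -/
def M4 : List ℕ :=
  [78, 142, 198, 202, 204, 2062, 2118, 2122, 2124, 2182, 2186, 2188, 2242, 2244, 2248]

/-- codes -/
def P4 : List ℕ :=
  [206, 2126, 2190, 2246, 2250, 2252]

/-- codes -/
def F5 : List ℕ :=
  [922, 926, 8350, 8606, 8842, 8846, 8858, 8860, 8862, 8990, 9098, 9102, 9114, 9116, 9118, 17054,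
   17306, 17310, 24718, 24730, 24734, 24974, 24986, 24990, 25102, 25114, 25118, 25226, 25230,
   25238, 25240, 25242, 25244, 25246, 25358, 25370, 25374, 25474, 25478, 25482, 25484, 25486,
   25490, 25494, 25496, 25498, 25500, 25502, 524702, 524938, 524942, 524954, 524958, 525086,
   525194, 525198, 525210, 525212, 525214, 532618, 532622, 532630, 532634, 532638, 532762,
   532766, 532874, 532878, 532886, 532890, 532894, 533002, 533006, 533018, 533022, 533122,
   533126, 533128, 533130, 533132, 533134, 533138, 533140, 533142, 533144, 533146, 533148,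
   533150, 533258, 533262, 533270, 533274, 533278, 533378, 533382, 533384, 533386, 533388,
   533390, 533394, 533396, 533398, 533400, 533402, 533404, 533406, 540814, 540826, 540830,
   541070, 541082, 541086, 541198, 541210, 541214, 541322, 541326, 541334, 541338, 541342,
   541454, 541466, 541470, 541578, 541580, 541582, 541586, 541590, 541592, 541594, 541596,
   541598, 548894, 549002, 549006, 549010, 549014, 549018, 549020, 549022, 549146, 549150,
   549254, 549256, 549258, 549260, 549262, 549266, 549270, 549272, 549274, 549276, 549278,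
   549386, 549390, 549402, 549404, 549406, 549506, 549510, 549512, 549514, 549516, 549518,
   549520, 549522, 549524, 549526, 549528, 549530, 549532, 549534, 549638, 549642, 549646,
   549650, 549654, 549656, 549658, 549660, 549662, 549762, 549764, 549766, 549768, 549770,
   549772, 549774, 549776, 549778, 549780, 549782, 549784, 549786, 549788, 549790]

/-- codes -/
def M5 : List ℕ :=
  [922, 8350, 8842, 8860, 8990, 17054, 24718, 24730, 25102, 25114, 25238, 25240, 25474, 25484,
   524702, 524938, 525086, 525212, 532618, 532630, 532762, 533002, 533122, 533128, 533140,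
   533270, 540814, 540826, 541198, 541210, 541334, 541580, 541586, 541592, 548894, 549010,
   549020, 549254, 549256, 549404, 549520, 549638, 549650, 549656, 549764]

/-- codes -/
def P5 : List ℕ :=
  [926, 24734, 25374, 25478, 25498, 25500, 532766, 533150, 533386, 533398, 533404, 541086,
   541214, 541582, 541586, 541596, 549260, 549270, 549274, 549518, 549524, 549530, 549646,
   549654, 549656]

/-- Decidable form of (every bit of `b` is the code of a pair). -/
lemma bits_of {n N b : ℕ} (hN : b < 2 ^ N)
    (h : ∀ k < N, b.testBit k = true → ∃ i j : Fin n, i < j ∧ k = n * (i : ℕ) + (j : ℕ)) :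
    ∀ k, b.testBit k = true → ∃ i j : Fin n, i < j ∧ k = n * (i : ℕ) + (j : ℕ) := by
  intro k hk
  by_cases hkN : k < N
  · exact h k hkN hk
  · rw [Nat.testBit_lt_two_pow (lt_of_lt_of_le hN (Nat.pow_le_pow_right (by norm_num)
      (not_lt.1 hkN)))] at hk
    exact absurd hk (by simp)

lemma cross_of {n N : ℕ} {P : List ℕ} (hN : ∀ p ∈ P, p < 2 ^ N)
    (h : ∀ c : Fin n → Fin 3, (∀ x : Fin 3, ∃ i, c i = x) → ∃ p ∈ P, ∀ k < N,
      p.testBit k = true → ∃ i j : Fin n, i < j ∧ c i ≠ c j ∧ k = n * (i : ℕ) + (j : ℕ)) :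
    ∀ c : Fin n → Fin 3, Function.Surjective c → ∃ p ∈ P, ∀ k, p.testBit k = true →
    ∃ i j : Fin n, i < j ∧ c i ≠ c j ∧ k = n * (i : ℕ) + (j : ℕ) := by
  intro c hc
  obtain ⟨p, hp, hk⟩ := h c (fun x => hc x)
  refine ⟨p, hp, fun k hkp => ?_⟩
  by_cases hkN : k < N
  · exact hk k hkN hkp
  · rw [Nat.testBit_lt_two_pow (lt_of_lt_of_le (hN p hp) (Nat.pow_le_pow_right (by norm_num)
      (not_lt.1 hkN)))] at hkp
    exact absurd hkp (by simp)

theorem four : ¬ Bound 4 := by
  apply not_bound (L := F4) (M := M4) (P := P4)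
  · refine ⟨by decide +kernel, by decide +kernel, ?_⟩
    exact cross_of (N := 16) (by decide +kernel) (by decide +kernel)
  · decide +kernel
  · intro b hb
    exact bits_of (N := 16) ((by decide +kernel : ∀ b ∈ F4, b < 2 ^ 16) b hb)
      ((by decide +kernel : ∀ b ∈ F4, ∀ k < 16, b.testBit k = true →
        ∃ i j : Fin 4, i < j ∧ k = 4 * (i : ℕ) + (j : ℕ)) b hb)
  · have h1 : F4.length = 22 := by decide +kernel
    have h2 : Nat.choose 4 2 = 6 := by decide
    rw [h1, h2]
    norm_num

theorem five : ¬ Bound 5 := by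
  apply not_bound (L := F5) (M := M5) (P := P5)
  · refine ⟨by decide +kernel, by decide +kernel, ?_⟩
    exact cross_of (N := 25) (by decide +kernel) (by decide +kernel)
  · decide +kernel
  · intro b hb
    exact bits_of (N := 25) ((by decide +kernel : ∀ b ∈ F5, b < 2 ^ 25) b hb)
      ((by decide +kernel : ∀ b ∈ F5, ∀ k < 25, b.testBit k = true →
        ∃ i j : Fin 5, i < j ∧ k = 5 * (i : ℕ) + (j : ℕ)) b hb)
  · have h1 : F5.length = 196 := by decide +kernel
    have h2 : Nat.choose 5 2 = 10 := by decide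
    rw [h1, h2]
    norm_num

/-- The conjectured bound fails for `n = 4` and for `n = 5`. -/
theorem result : ¬ Bound 4 ∧ ¬ Bound 5 := ⟨four, five⟩

end Pool.Agent.Results.MP_5e9fbd_co.SmallCounterexamples
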